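import Pool.Agent.W559.Et.Stm4
import Pool.Agent.W32.Et.Laur

/-!
Smoothness of the Rees algebra of the first level (subtask ET-CRIT1).
-/

set_option autoImplicit false
set_option linter.unusedSectionVars false

open MvPolynomial

universe u v w

namespace Pool.Agent.W125.ET

open Pool.Agent.W559.Mg Pool.Agent.W559.Et
open Pool.Agent

section coords

variable {k K : Type u} [Field k] [Field K] [Algebra k K]

/-- Etale coordinates are linearly independent. -/
lemma lin_indep {B : Subalgebra k K} {n : ℕ} (x : Fin n → B)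
    (hx : ((aeval x : MvPolynomial (Fin n) k →ₐ[k] B).toRingHom).Etale) (v : Fin n → k)
    (hv : ∑ i, v i • (x i : K) = 0) : v = 0 := by
  classical
  let φ : MvPolynomial (Fin n) k →ₐ[k] B := aeval x
  have hinj : Function.Injective φ := by
    let _ : Algebra (MvPolynomial (Fin n) k) B := φ.toRingHom.toAlgebra
    have h1 : Algebra.Etale (MvPolynomial (Fin n) k) B := hx
    have h2 : Module.Flat (MvPolynomial (Fin n) k) B := inferInstance
    intro a b hab
    by_contra hne
    have h3 : a - b ≠ 0 := sub_ne_zero.2 hne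
    have h4 : IsSMulRegular B (a - b) :=
      Module.Flat.isSMulRegular_of_isRegular (IsRegular.of_ne_zero h3)
    have h5 : (a - b) • (1 : B) = (a - b) • (0 : B) := by
      rw [smul_zero]
      change φ (a - b) * 1 = 0
      rw [mul_one, map_sub, hab, sub_self]
    exact one_ne_zero (h4 h5)
  have h1 : φ (∑ i, v i • X i) = 0 := by
    apply Subtype.ext
    rw [map_sum]
    have h2 : ∀ i, φ (v i • X i) = v i • x i := by
      intro i
      rw [map_smul]
      congr 1
      exact aeval_X _ _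
    rw [Finset.sum_congr rfl fun i _ => h2 i]
    refine Eq.trans ?_ hv
    push_cast
    rfl
  have h3 : (∑ i, v i • X i : MvPolynomial (Fin n) k) = 0 := by
    apply hinj
    rw [h1, map_zero]
  funext j
  have h4 := congrArg (coeff (Finsupp.single j 1)) h3
  rw [coeff_sum, coeff_zero, Finset.sum_eq_single j] at h4
  · rw [coeff_smul, coeff_X, if_pos rfl, smul_eq_mul, mul_one] at h4
    exact h4
  · intro i _ hi
    rw [coeff_smul, coeff_X, if_neg, smul_zero]
    intro h5
    exact hi (Finsupp.single_left_injective one_ne_zero h5)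
  · intro h
    exact absurd (Finset.mem_univ _) h

end coords

section tr

variable {k K : Type u} [Field k] [Field K] [Algebra k K]

/-- the first direction -/
def i1 : ℤ →+ G3 where
  toFun d := dg d 0 0
  map_zero' := rfl
  map_add' _ _ := by rw [dg_add, add_zero]

lemma i1_inj : Function.Injective i1 := fun a b h => congrArg Prod.fst h

/-- The embedding of the Laurent polynomials. -/
noncomputable def jj (k K : Type u) [Field k] [Field K] [Algebra k K] :
    H920R2.LP K →ₐ[k] ML K G3 where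
  toFun := AddMonoidAlgebra.mapDomain i1
  map_one' := AddMonoidAlgebra.mapDomain_one i1
  map_mul' _ _ := AddMonoidAlgebra.mapDomain_mul i1 _ _
  map_zero' := AddMonoidAlgebra.mapDomain_zero _
  map_add' _ _ := AddMonoidAlgebra.mapDomain_add _ _ _
  commutes' _ := AddMonoidAlgebra.mapDomain_single

lemma jj_hm (d : ℤ) (a : K) : jj k K (H920R2.hm d a) = mo (dg d 0 0) a :=
  AddMonoidAlgebra.mapDomain_single

lemma jj_inj : Function.Injective (jj k K) := AddMonoidAlgebra.mapDomain_injective i1_inj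

lemma jj_coeff (f : H920R2.LP K) (e : G3) (he : e.2.2.1 ≠ 0) : (jj k K f).coeff e = 0 := by
  change (Finsupp.mapDomain i1 f.coeff) e = 0
  refine Finsupp.mapDomain_of_notMem_range _ _ ?_
  rintro ⟨d, rfl⟩
  exact he rfl

end tr

section main

variable {k K : Type u} [Field k] [Field K] [Algebra k K]

lemma pow_mem' (γ : K →ₐ[k] K) (B : Subalgebra k K) (hB : ∀ x ∈ B, γ x ∈ B) (r : ℕ) :
    ∀ x ∈ B, (γ ^ r) x ∈ B := by
  induction r with
  | zero => exact fun x hx => hx
  | succ r ih =>
    intro x hx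
    rw [pow_succ', AlgHom.mul_apply]
    exact hB _ (ih x hx)

/-- The transported algebra. -/
noncomputable def SJ (σ : K →ₐ[k] K) (B : Subalgebra k K) : Subalgebra k (ML K G3) :=
  Algebra.adjoin k ({sS K} ∪ {f | ∃ a ∈ B, ∃ j : ℕ, f = mo (dg j 0 0) ((dl σ)^[j] a)})

lemma map_RS (τ : K ≃ₐ[k] K) (σ : K →ₐ[k] K) (hτσ : ∀ x, τ x = σ x) {p : ℕ} (hp : p.Prime)
    (hpk : (p : k) = 0) (hσ : ∀ x : K, σ^[p] x = x) (B : Subalgebra k K) :
    (H920R2.RS τ p B).map (jj k K) = SJ σ B := by
  have hdel : H920R2.del τ = dl σ := by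
    funext x
    change τ x - x = σ x - x
    rw [hτσ]
  unfold H920R2.RS SJ
  rw [AlgHom.map_adjoin]
  apply le_antisymm
  · rw [Algebra.adjoin_le_iff]
    rintro _ ⟨f, (hf | ⟨a, c, hc, ha, rfl⟩), rfl⟩
    · rw [hf, jj_hm]
      exact Algebra.subset_adjoin (Or.inl rfl)
    · rw [jj_hm, hdel]
      exact Algebra.subset_adjoin (Or.inr ⟨c, hc, a, rfl⟩)
  · rw [Algebra.adjoin_le_iff]
    rintro f (hf | ⟨c, hc, a, rfl⟩)
    · rw [Set.mem_singleton_iff.1 hf]
      refine Algebra.subset_adjoin ⟨H920R2.hm (-1) 1, Or.inl rfl, ?_⟩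
      rw [jj_hm]
      rfl
    · by_cases ha : a < p
      · refine Algebra.subset_adjoin ⟨H920R2.hm a ((H920R2.del τ)^[a] c),
          Or.inr ⟨a, c, hc, ha, rfl⟩, ?_⟩
        rw [jj_hm, hdel]
      · obtain ⟨b, hb⟩ := Nat.exists_eq_add_of_le (not_lt.1 ha)
        have hpK : (p : K) = 0 := by
          rw [← map_natCast (algebraMap k K), hpk, map_zero]
        have h1 : (dl σ)^[a] c = 0 := by
          rw [hb, add_comm, Function.iterate_add_apply, dl_iter_p σ hp hpK, hσ, sub_self]
          have h2 : ∀ n : ℕ, (dl σ)^[n] (0 : K) = 0 := by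
            intro n
            induction n with
            | zero => rfl
            | succ n ih => rw [Function.iterate_succ_apply, dl_zero, ih]
          exact h2 b
        rw [h1, mo_zero]
        exact Subalgebra.zero_mem _

lemma RF_eq (γ : K →ₐ[k] K) (r : ℕ) (B : Subalgebra k K) :
    RF γ r B = Algebra.adjoin k ((SJ (γ ^ r) B : Set (ML K G3)) ∪
      {mo (dg 0 0 1) 1, mo (dg 0 0 (-1)) 1}) := by
  unfold RF
  apply le_antisymm
  · rw [Algebra.adjoin_le_iff]
    rintro f ((hf | hf | hf) | ⟨a, ha, j, rfl⟩)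
    · rw [hf]
      exact Algebra.subset_adjoin (Or.inl (Algebra.subset_adjoin (Or.inl rfl)))
    · rw [hf]
      exact Algebra.subset_adjoin (Or.inr (Or.inl rfl))
    · rw [Set.mem_singleton_iff.1 hf]
      exact Algebra.subset_adjoin (Or.inr (Or.inr rfl))
    · exact Algebra.subset_adjoin (Or.inl (Algebra.subset_adjoin (Or.inr ⟨a, ha, j, rfl⟩)))
  · rw [Algebra.adjoin_le_iff]
    rintro f (hf | hf | hf)
    · revert f
      change SJ (γ ^ r) B ≤ _
      unfold SJ
      rw [Algebra.adjoin_le_iff]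
      rintro f (hf | ⟨a, ha, j, rfl⟩)
      · rw [Set.mem_singleton_iff.1 hf]
        exact Algebra.subset_adjoin (Or.inl (Or.inl rfl))
      · exact Algebra.subset_adjoin (Or.inr ⟨a, ha, j, rfl⟩)
    · rw [hf]
      exact Algebra.subset_adjoin (Or.inl (Or.inr (Or.inl rfl)))
    · rw [Set.mem_singleton_iff.1 hf]
      exact Algebra.subset_adjoin (Or.inl (Or.inr (Or.inr rfl)))

lemma indep_z (S : Subalgebra k (ML K G3)) (hS : ∀ f ∈ S, ∀ e : G3, e.2.2.1 ≠ 0 → f.coeff e = 0)
    (c : ℕ →₀ ML K G3) (hc : ∀ i, c i ∈ S)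
    (h : (c.sum fun i a => a * (mo (dg 0 0 1) 1 : ML K G3) ^ i) = 0) : c = 0 := by
  refine Finsupp.ext fun n => ?_
  apply ml_ext
  intro d
  rw [Finsupp.coe_zero, Pi.zero_apply, coeff_zero']
  by_cases hd : d.2.2.1 = 0
  · have h1 := congrArg (fun f : ML K G3 => f.coeff (d + dg 0 0 n)) h
    rw [Finsupp.sum, coeff_sum', coeff_zero'] at h1
    have h2 : ∀ i : ℕ, (c i * (mo (dg 0 0 1) 1 : ML K G3) ^ i).coeff (d + dg 0 0 n) =
        if i = n then (c n).coeff d else 0 := by
      intro i
      rw [mo_pow, one_pow, mul_comm, coeff_mo_mul, one_mul, dg_nsmul]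
      split_ifs with hi
      · rw [hi]
        congr 1
        rw [mul_one, mul_zero, add_sub_cancel_right]
      · refine hS _ (hc i) _ ?_
        change d.2.2.1 + (n : ℤ) - (i : ℤ) * 1 ≠ 0
        rw [hd]
        intro h3
        apply hi
        omega
    rw [Finset.sum_congr rfl fun i _ => h2 i, Finset.sum_ite_eq'] at h1
    split_ifs at h1 with h3
    · exact h1
    · rw [Finsupp.notMem_support_iff.1 h3]
      rfl
  · exact hS _ (hc n) d hd

theorem crit1 : Crit1Stm.{u} := by
  intro k K _ _ _ γ p hp hpk r hγ B hB hfr hsm hLL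
  classical
  set σ : K →ₐ[k] K := γ ^ r with hσd
  have hbij : Function.Bijective σ := by
    refine ⟨σ.toRingHom.injective, fun x => ?_⟩
    obtain ⟨q, hq⟩ := Nat.exists_eq_succ_of_ne_zero hp.ne_zero
    refine ⟨(⇑σ)^[q] x, ?_⟩
    rw [← Function.iterate_succ_apply' (⇑σ), ← hq]
    exact hγ x
  let τ : K ≃ₐ[k] K := AlgEquiv.ofBijective σ hbij
  have hτσ : ∀ x, τ x = σ x := fun x => rfl
  have hBσ : ∀ c ∈ B, τ c ∈ B := pow_mem' γ B hB r
  have hτp : ∀ x, (⇑τ)^[p] x = x := hγ
  have hsmooth : Algebra.Smooth k (H920R2.RS τ p B) := by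
    refine H920R2.smooth_RS τ hp hpk B hsm hBσ hτp ?_
    intro q hq hqB
    obtain ⟨f, hf, hfq, hσf, m, x, T, hx, hT⟩ := hLL q hq (fun c hc h => hqB c hc)
    refine ⟨f, hf, hfq, hσf, Fin m, inferInstance, x, T, hx, ?_, ?_⟩
    · have h1 : ∀ n : ℕ, ∀ v : Fin m → k, (⇑σ)^[n] (∑ i, v i • (x i : K)) =
          ∑ i, (T ^ n) v i • (x i : K) := by
        intro n
        induction n with
        | zero => intro v; rfl
        | succ n ih =>
          intro v
          rw [Function.iterate_succ_apply, hT, ih, pow_succ]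
          rfl
      refine LinearMap.ext fun v => ?_
      have h2 := h1 p v
      have h3 : (⇑σ)^[p] (∑ i, v i • (x i : K)) = ∑ i, v i • (x i : K) := hγ _
      rw [h3] at h2
      have h4 : (T ^ p) v - v = 0 := by
        refine lin_indep x hx _ ?_
        have h5 : ∀ i, ((T ^ p) v - v) i • (x i : K) =
            (T ^ p) v i • (x i : K) - v i • (x i : K) := by
          intro i
          rw [Pi.sub_apply, sub_smul]
        rw [Finset.sum_congr rfl fun i _ => h5 i, Finset.sum_sub_distrib, ← h2, sub_self]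
      rw [sub_eq_zero.1 h4]
      rfl
    · intro v s hs
      rw [Finset.eq_univ_iff_forall.2 hs]
      exact hT v
  have hS : Algebra.Smooth k (SJ σ B) := by
    rw [← map_RS τ σ hτσ hp hpk hγ B]
    exact Algebra.Smooth.of_equiv ((H920R2.RS τ p B).equivMapOfInjective (jj k K) jj_inj)
  rw [RF_eq]
  refine W32.Et.laur k (ML K G3) (SJ σ B) (mo (dg 0 0 1) 1) (mo (dg 0 0 (-1)) 1) ?_ ?_ hS
  · rw [mo_mul, dg_add, one_mul]
    rfl
  · intro c hc h
    refine indep_z (SJ σ B) ?_ c hc h
    intro f hf e he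
    rw [← map_RS τ σ hτσ hp hpk hγ B] at hf
    obtain ⟨g, -, rfl⟩ := hf
    exact jj_coeff (k := k) g e he

end main

end Pool.Agent.W125.ET
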